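import Pool.Agent.GT.StmtsF

/-!
# Row F_FG of the squad GT: Mordell-Weil from the finiteness of `W(ℚ) / 2`
-/

set_option autoImplicit false

namespace Pool.Agent.GT.F.H24

open Pool.Agent.GT.F

/-- `Ix` gives the finiteness of the index of `2 A`. -/
theorem finiteIndex_of_ix {A : Type} [AddCommGroup A] {N : ℕ} (h : Ix A N) :
    (nsmulAddMonoidHom (α := A) 2).range.FiniteIndex := by
  classical
  have hfin : Finite (A ⧸ (nsmulAddMonoidHom (α := A) 2).range) := by
    by_contra hinf
    rw [not_finite_iff_infinite] at hinf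
    obtain ⟨s, hs⟩ := Infinite.exists_subset_card_eq
      (A ⧸ (nsmulAddMonoidHom (α := A) 2).range) (N + 1)
    have hinj : Function.Injective
        (Quotient.out : (A ⧸ (nsmulAddMonoidHom (α := A) 2).range) → A) :=
      Quotient.out_injective
    have h1 := h (s.image Quotient.out) ?_
    · rw [Finset.card_image_of_injective _ hinj, hs] at h1
      omega
    · intro a ha b hb hab
      obtain ⟨x, _, rfl⟩ := Finset.mem_image.1 ha
      obtain ⟨y, _, rfl⟩ := Finset.mem_image.1 hb
      obtain ⟨c, hc⟩ := hab
      have hxy : x = y := by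
        rw [← QuotientAddGroup.out_eq' x, ← QuotientAddGroup.out_eq' y]
        symm
        rw [QuotientAddGroup.eq]
        refine ⟨c, ?_⟩
        have : Quotient.out x = Quotient.out y + (c + c) := hc
        change (2 : ℕ) • c = -(Quotient.out y) + Quotient.out x
        rw [this, two_nsmul]
        abel
      rw [hxy]
  exact AddSubgroup.finiteIndex_of_finite_quotient

/-- **F_FG**. -/
theorem f_fg (hht : HgtStmt) : FgStmt := by
  intro _ W hΔ N hN
  obtain ⟨⟨C, hC⟩, h0, hB⟩ := hht W hΔ
  haveI : Northcott (ht (W := W)) := ⟨hB⟩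
  exact AddCommGroup.fg_of_descent' (h := ht (W := W)) (C := C) (finiteIndex_of_ix hN) h0 hC

end Pool.Agent.GT.F.H24
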