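import Pool.Agent.GT.StmtsC

/-! Row C_EXC. -/

namespace Pool.Agent.GT.H24

open Finset Pool.Agent.GT

theorem c_exc (bet : BetStmt) (exa : ExaStmt) (exb : ExbStmt) : ExcStmt := by
  intro σ _ _ P R α hP hR h
  have key : ∀ p : ℕ, ∃ β : Finset σ → ℝ, p ∈ P → (β ∅ = 1 ∧
      (∀ U : Finset σ, U.card = 1 → β U = 0) ∧
      (∀ U : Finset σ, 2 ≤ U.card → |β U| ≤ 2 ^ U.card / (p : ℝ) ^ 2) ∧
      ∀ T, α p T = ∑ U ∈ T.powerset, β U * (1 / (p : ℝ)) ^ (T \ U).card) := by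
    intro p
    by_cases hp : p ∈ P
    · obtain ⟨h1, h2, h3⟩ := h p hp
      obtain ⟨β, hβ⟩ := bet σ p (α p) (hP p hp).two_le h1 h2 h3
      exact ⟨β, fun _ => hβ⟩
    · exact ⟨fun _ => 0, fun h => absurd h hp⟩
  choose β hβ using key
  have e := exa σ P R α β hP (fun p hp => (hβ p hp).2.2.2)
  rw [e]
  exact exb σ P R β hP hR (fun p hp => ⟨(hβ p hp).1, (hβ p hp).2.1, (hβ p hp).2.2.1⟩)

end Pool.Agent.GT.H24
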