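import Pool.Agent.GT.StmtsD

/-! Row D_MLE: nonsplit multiplicative reduction, even case. -/

set_option autoImplicit false

namespace Pool.Agent.GT.H24

open Pool.Agent.GT.D

theorem z2 (z : ZMod 2) : z = 0 ∨ z = 1 := by
  fin_cases z
  · exact Or.inl rfl
  · exact Or.inr rfl

theorem three : ∀ i j : Fin 3, j = i ∨ j = i + 1 ∨ j = i + 2 := by decide

theorem vsub {p : ℕ} (hp : p.Prime) {m n : ℤ} (hm : m ≠ 0) (hmn : m - n ≠ 0)
    (h : padicValInt p m < padicValInt p n) : padicValInt p (m - n) = padicValInt p m := by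
  haveI := Fact.mk hp
  apply le_antisymm
  · by_contra hc
    push Not at hc
    have h1 : (p : ℤ) ^ (padicValInt p m + 1) ∣ m - n := (padicValInt_dvd_iff _ _).2 (Or.inr hc)
    have h2 : (p : ℤ) ^ (padicValInt p m + 1) ∣ n := (padicValInt_dvd_iff _ _).2 (Or.inr h)
    have h3 : (p : ℤ) ^ (padicValInt p m + 1) ∣ m := by
      have := dvd_add h1 h2
      rwa [sub_add_cancel] at this
    rcases (padicValInt_dvd_iff _ _).1 h3 with h4 | h4
    · exact hm h4
    · omega
  · have h1 : (p : ℤ) ^ padicValInt p m ∣ m := (padicValInt_dvd_iff _ _).2 (Or.inr le_rfl)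
    have h2 : (p : ℤ) ^ padicValInt p m ∣ n := (padicValInt_dvd_iff _ _).2 (Or.inr h.le)
    rcases (padicValInt_dvd_iff _ _).1 (dvd_sub h1 h2) with h4 | h4
    · exact absurd h4 hmn
    · exact h4

theorem vneg (p : ℕ) (n : ℤ) : padicValInt p (-n) = padicValInt p n := by
  unfold padicValInt
  rw [Int.natAbs_neg]

/-- two numbers with the same odd valuation, whose difference has even valuation, have the same
unit part modulo `p` -/
theorem ul_eq {p : ℕ} (hp : p.Prime) {m n : ℤ} (hm : m ≠ 0) (hn : n ≠ 0) (hmn : m - n ≠ 0)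
    (h1 : vl p m = 1) (h2 : vl p n = 1) (h3 : vl p (m - n) = 0) : ul p m = ul p n := by
  haveI := Fact.mk hp
  have hp0 : (p : ℤ) ≠ 0 := by exact_mod_cast hp.ne_zero
  have hk : padicValInt p m = padicValInt p n := by
    rcases lt_trichotomy (padicValInt p m) (padicValInt p n) with h | h | h
    · exfalso
      have e := vsub hp hm hmn h
      unfold vl at h1 h3
      rw [e, h1] at h3
      exact one_ne_zero h3
    · exact h
    · exfalso
      have e := vsub hp hn (fun h0 => hmn (by rw [← neg_sub, h0, neg_zero])) h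
      rw [← neg_sub, vneg] at e
      unfold vl at h2 h3
      rw [e, h2] at h3
      exact one_ne_zero h3
  have hlt : padicValInt p m + 1 ≤ padicValInt p (m - n) := by
    have d1 : (p : ℤ) ^ padicValInt p m ∣ m := (padicValInt_dvd_iff _ _).2 (Or.inr le_rfl)
    have d2 : (p : ℤ) ^ padicValInt p m ∣ n := (padicValInt_dvd_iff _ _).2 (Or.inr hk.le)
    rcases (padicValInt_dvd_iff _ _).1 (dvd_sub d1 d2) with h4 | h4
    · exact absurd h4 hmn
    · rcases Nat.eq_or_lt_of_le h4 with h5 | h5
      · exfalso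
        unfold vl at h1 h3
        rw [← h5, h1] at h3
        exact one_ne_zero h3
      · exact h5
  have d3 : (p : ℤ) ^ (padicValInt p m + 1) ∣ m - n := (padicValInt_dvd_iff _ _).2 (Or.inr hlt)
  have u1 : (p : ℤ) ^ padicValInt p m * un p m = m := by
    unfold un
    exact Int.mul_ediv_cancel' ((padicValInt_dvd_iff _ _).2 (Or.inr le_rfl))
  have u2 : (p : ℤ) ^ padicValInt p m * un p n = n := by
    unfold un
    rw [hk]
    exact Int.mul_ediv_cancel' ((padicValInt_dvd_iff _ _).2 (Or.inr le_rfl))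
  have d4 : (p : ℤ) ∣ un p n - un p m := by
    rw [← dvd_neg, neg_sub]
    have e : m - n = (p : ℤ) ^ padicValInt p m * (un p m - un p n) := by
      rw [mul_sub, u1, u2]
    rw [e, pow_succ] at d3
    exact (mul_dvd_mul_iff_left (pow_ne_zero _ hp0)).1 d3
  have e : ((un p m : ℤ) : ZMod p) = ((un p n : ℤ) : ZMod p) :=
    (ZMod.intCast_eq_intCast_iff_dvd_sub _ _ _).2 d4
  unfold ul
  rw [e]

theorem d_mle (hA : AddStmt) (hV : ValStmt) : MleStmt := by
  intro e r s p i hT hp hp2 h1 h2 hne hd hev hul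
  haveI := Fact.mk hp
  have hpz : Prime (p : ℤ) := Nat.prime_iff_prime_int.mp hp
  obtain ⟨hA1, hA2, -⟩ := hA
  obtain ⟨hV1, -, hV3, -⟩ := hV
  have av := hA1 p hp
  have au := hA2 p hp hp2
  -- the product
  have hprod : Xc e r s 0 * Xc e r s 1 * Xc e r s 2 =
      Xc e r s i * Xc e r s (i + 1) * Xc e r s (i + 2) := by
    fin_cases i
    · rfl
    · show Xc e r s 0 * Xc e r s 1 * Xc e r s 2 = Xc e r s 1 * Xc e r s 2 * Xc e r s 0
      ring
    · show Xc e r s 0 * Xc e r s 1 * Xc e r s 2 = Xc e r s 2 * Xc e r s 0 * Xc e r s 1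
      ring
  obtain ⟨m, hm⟩ := hT.sq
  rw [hprod] at hm
  have n0 := hT.ne i
  have n1 := hT.ne (i + 1)
  have n2 := hT.ne (i + 2)
  have hm0 : m ≠ 0 := by
    intro h
    rw [h, zero_mul] at hm
    exact (mul_ne_zero (mul_ne_zero n0 n1) n2) hm
  have sv : vl p (Xc e r s i) + vl p (Xc e r s (i + 1)) + vl p (Xc e r s (i + 2)) = 0 := by
    rw [← av.mul _ _ n0 n1, ← av.mul _ _ (mul_ne_zero n0 n1) n2, hm]
    exact av.sq hm0
  have su : ul p (Xc e r s i) + ul p (Xc e r s (i + 1)) + ul p (Xc e r s (i + 2)) = 0 := by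
    rw [← au.mul _ _ n0 n1, ← au.mul _ _ (mul_ne_zero n0 n1) n2, hm]
    exact au.sq hm0
  have all : vl p (Xc e r s i) = 0 → vl p (Xc e r s (i + 1)) = 0 → vl p (Xc e r s (i + 2)) = 0 →
      ∀ j, vl p (Xc e r s j) = 0 := by
    intro a b c j
    have hj : j = i ∨ j = i + 1 ∨ j = i + 2 := three i j
    rcases hj with rfl | rfl | rfl
    · exact a
    · exact b
    · exact c
  have d1 : ∀ j, Xc e r s j = Xc e r s i - (e j - e i) * s ^ 2 := by
    intro j
    unfold Xc
    ring
  by_cases hs : (p : ℤ) ∣ s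
  · -- all are units
    have hr : ¬ (p : ℤ) ∣ r := by
      intro hr
      obtain ⟨a, b, hab⟩ := hT.cop
      apply hpz.not_unit
      rw [isUnit_iff_dvd_one, ← hab]
      exact dvd_add (hr.mul_left a) (hs.mul_left b)
    have hx : ∀ j, ¬ (p : ℤ) ∣ Xc e r s j := by
      intro j hj
      apply hr
      have : r = Xc e r s j + e j * s * s := by
        unfold Xc
        ring
      rw [this]
      exact dvd_add hj (hs.mul_left _)
    exact fun j => (hV1 p _ hp (hx j)).1
  by_cases hx : (p : ℤ) ∣ Xc e r s i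
  · have hu : ∀ j, ¬ (p : ℤ) ∣ e j - e i → ¬ (p : ℤ) ∣ Xc e r s j := by
      intro j hj hc
      rw [d1 j] at hc
      have h3 : (p : ℤ) ∣ (e j - e i) * s ^ 2 := by
        have := dvd_sub hx hc
        rwa [sub_sub_cancel] at this
      rcases hpz.dvd_or_dvd h3 with h4 | h4
      · exact hj h4
      · exact hs (hpz.dvd_of_dvd_pow h4)
    have a1 := (hV1 p _ hp (hu _ h1)).1
    have a2 := (hV1 p _ hp (hu _ h2)).1
    rw [a1, a2, add_zero, add_zero] at sv
    exact all sv a1 a2
  · have a0 := (hV1 p _ hp hx).1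
    rcases z2 (vl p (Xc e r s (i + 1))) with a1 | a1
    · rw [a0, a1, zero_add, zero_add] at sv
      exact all a0 a1 sv
    · exfalso
      have a2 : vl p (Xc e r s (i + 2)) = 1 := by
        rcases z2 (vl p (Xc e r s (i + 2))) with h | h
        · rw [a0, a1, h] at sv
          exact absurd sv (by decide)
        · exact h
      have hdiff : Xc e r s (i + 1) - Xc e r s (i + 2) = -((e (i + 1) - e (i + 2)) * (s * s)) := by
        unfold Xc
        ring
      have hs0 := hT.s0
      have he0 : e (i + 1) - e (i + 2) ≠ 0 := sub_ne_zero.2 hne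
      have hdn : Xc e r s (i + 1) - Xc e r s (i + 2) ≠ 0 := by
        rw [hdiff]
        exact neg_ne_zero.2 (mul_ne_zero he0 (mul_ne_zero hs0 hs0))
      have hv : vl p (Xc e r s (i + 1) - Xc e r s (i + 2)) = 0 := by
        rw [hdiff]
        have : vl p (-((e (i + 1) - e (i + 2)) * (s * s))) =
            vl p ((e (i + 1) - e (i + 2)) * (s * s)) := by
          unfold vl
          rw [vneg]
        rw [this, av.mul _ _ he0 (mul_ne_zero hs0 hs0), hev, av.sq hs0, add_zero]
      have hue := ul_eq hp n1 n2 hdn a1 a2 hv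
      rw [hue, add_assoc, CharTwo.add_self_eq_zero, add_zero] at su
      -- `x` is a square modulo `p`
      have hxs : IsSquare ((Xc e r s i : ℤ) : ZMod p) := by
        by_contra hc
        rw [(hV3 p _ hp hp2 hx).2 hc] at su
        exact one_ne_zero su
      have hpu : (p : ℤ) ∣ Xc e r s (i + 1) := by
        by_contra hc
        rw [(hV1 p _ hp hc).1] at a1
        exact zero_ne_one a1
      have hsz : ((s : ℤ) : ZMod p) ≠ 0 := by
        intro h
        exact hs ((ZMod.intCast_zmod_eq_zero_iff_dvd _ _).1 h)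
      have hxe : ((Xc e r s i : ℤ) : ZMod p) = ((e (i + 1) - e i : ℤ) : ZMod p) * (s : ZMod p) ^ 2 := by
        have h3 : ((Xc e r s (i + 1) : ℤ) : ZMod p) = 0 :=
          (ZMod.intCast_zmod_eq_zero_iff_dvd _ _).2 hpu
        rw [d1 (i + 1)] at h3
        push_cast at h3 ⊢
        linear_combination h3
      have hsq : IsSquare ((e (i + 1) - e i : ℤ) : ZMod p) := by
        obtain ⟨y, hy⟩ := hxs
        refine ⟨y * ((s : ℤ) : ZMod p)⁻¹, ?_⟩
        have h4 : ((e (i + 1) - e i : ℤ) : ZMod p) =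
            ((Xc e r s i : ℤ) : ZMod p) * (((s : ℤ) : ZMod p)⁻¹ * ((s : ℤ) : ZMod p)⁻¹) := by
          rw [hxe]
          field_simp
        rw [h4, hy]
        ring
      rw [(hV3 p _ hp hp2 h1).1 hsq] at hul
      exact zero_ne_one hul

end Pool.Agent.GT.H24
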