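import Pool.Agent.GT.StmtsE

/-!
# Row E_IDN of the squad GT: the identity for `X(Q+R) X(Q-R)`
-/

set_option autoImplicit false

namespace Pool.Agent.GT.OF.H24

open Polynomial Pool.Agent.NJ Pool.Agent.GT.D Pool.Agent.GT.OF

theorem sq_eta {F : Type} [Field F] {a₁ a₂ a₃ a₄ a₆ e f g x y : F}
    (hb2 : a₁ ^ 2 + 4 * a₂ = -4 * (e + f + g))
    (hb4 : 2 * a₄ + a₁ * a₃ = 2 * (e * f + e * g + f * g))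
    (hb6 : a₃ ^ 2 + 4 * a₆ = -4 * (e * f * g))
    (h : y ^ 2 + a₁ * x * y + a₃ * y = x ^ 3 + a₂ * x ^ 2 + a₄ * x + a₆) :
    (2 * y + a₁ * x + a₃) ^ 2 = 4 * ((x - e) * (x - f) * (x - g)) := by
  linear_combination 4 * h + x ^ 2 * hb2 + 2 * x * hb4 + hb6

theorem key {F : Type} [Field F] (two : (2 : F) ≠ 0) {a₁ a₂ a₃ a₄ a₆ e f g x₁ x₂ y₁ y₂ : F}
    (hb2 : a₁ ^ 2 + 4 * a₂ = -4 * (e + f + g))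
    (hb4 : 2 * a₄ + a₁ * a₃ = 2 * (e * f + e * g + f * g))
    (hb6 : a₃ ^ 2 + 4 * a₆ = -4 * (e * f * g))
    (h₁ : y₁ ^ 2 + a₁ * x₁ * y₁ + a₃ * y₁ = x₁ ^ 3 + a₂ * x₁ ^ 2 + a₄ * x₁ + a₆)
    (h₂ : y₂ ^ 2 + a₁ * x₂ * y₂ + a₃ * y₂ = x₂ ^ 3 + a₂ * x₂ ^ 2 + a₄ * x₂ + a₆)
    (hd : x₁ - x₂ ≠ 0) {L M : F} (hL : L * (x₁ - x₂) = y₁ - y₂)
    (hM : M * (x₁ - x₂) = y₁ - (-y₂ - a₁ * x₂ - a₃)) :
    (L ^ 2 + a₁ * L - a₂ - x₁ - x₂ - e) * (M ^ 2 + a₁ * M - a₂ - x₁ - x₂ - e) *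
      (x₁ - x₂) ^ 2 = ((x₁ - e) * (x₂ - e) - (e - f) * (e - g)) ^ 2 := by
  have hE1 := sq_eta hb2 hb4 hb6 h₁
  have hE2 := sq_eta hb2 hb4 hb6 h₂
  have hN3 : 4 * (L ^ 2 + a₁ * L - a₂ - x₁ - x₂ - e) * (x₁ - x₂) ^ 2 =
      ((2 * y₁ + a₁ * x₁ + a₃) - (2 * y₂ + a₁ * x₂ + a₃)) ^ 2 +
        4 * (f + g - x₁ - x₂) * (x₁ - x₂) ^ 2 := by
    linear_combination (4 * (L * (x₁ - x₂) + (y₁ - y₂)) + 4 * a₁ * (x₁ - x₂)) * hL -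
      (x₁ - x₂) ^ 2 * hb2
  have hN4 : 4 * (M ^ 2 + a₁ * M - a₂ - x₁ - x₂ - e) * (x₁ - x₂) ^ 2 =
      ((2 * y₁ + a₁ * x₁ + a₃) + (2 * y₂ + a₁ * x₂ + a₃)) ^ 2 +
        4 * (f + g - x₁ - x₂) * (x₁ - x₂) ^ 2 := by
    linear_combination (4 * (M * (x₁ - x₂) + (y₁ - (-y₂ - a₁ * x₂ - a₃))) +
      4 * a₁ * (x₁ - x₂)) * hM - (x₁ - x₂) ^ 2 * hb2
  have h16 : (16 : F) * (x₁ - x₂) ^ 2 ≠ 0 := by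
    have : (16 : F) = 2 ^ 4 := by norm_num
    rw [this]
    exact mul_ne_zero (pow_ne_zero _ two) (pow_ne_zero _ hd)
  apply mul_left_cancel₀ h16
  generalize 2 * y₁ + a₁ * x₁ + a₃ = η₁ at *
  generalize 2 * y₂ + a₁ * x₂ + a₃ = η₂ at *
  generalize L ^ 2 + a₁ * L - a₂ - x₁ - x₂ - e = X3 at *
  generalize M ^ 2 + a₁ * M - a₂ - x₁ - x₂ - e = X4 at *
  linear_combination (4 * X4 * (x₁ - x₂) ^ 2) * hN3 +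
    ((η₁ - η₂) ^ 2 + 4 * (f + g - x₁ - x₂) * (x₁ - x₂) ^ 2) * hN4 +
    ((η₁ ^ 2 - η₂ ^ 2 + 4 * ((x₁ - e) * (x₁ - f) * (x₁ - g)) -
      4 * ((x₂ - e) * (x₂ - f) * (x₂ - g))) +
      2 * (4 * (f + g - x₁ - x₂)) * (x₁ - x₂) ^ 2) * hE1 +
    (-(η₁ ^ 2 - η₂ ^ 2 + 4 * ((x₁ - e) * (x₁ - f) * (x₁ - g)) -
      4 * ((x₂ - e) * (x₂ - f) * (x₂ - g))) +
      2 * (4 * (f + g - x₁ - x₂)) * (x₁ - x₂) ^ 2) * hE2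

/-- **E_IDN**. -/
theorem e_idn : IdnStmt := by
  intro F _ W e he Q R x₁ x₂ hQ hR hx
  classical
  obtain ⟨y₁, h₁, rfl⟩ := hQ
  obtain ⟨y₂, h₂, rfl⟩ := hR
  have hd : x₁ - x₂ ≠ 0 := sub_ne_zero.2 hx
  have e₁ : y₁ ^ 2 + W.a₁ * x₁ * y₁ + W.a₃ * y₁ =
      x₁ ^ 3 + W.a₂ * x₁ ^ 2 + W.a₄ * x₁ + W.a₆ :=
    (WeierstrassCurve.Affine.equation_iff _ _).1 h₁.1
  have e₂ : y₂ ^ 2 + W.a₁ * x₂ * y₂ + W.a₃ * y₂ =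
      x₂ ^ 3 + W.a₂ * x₂ ^ 2 + W.a₄ * x₂ + W.a₆ :=
    (WeierstrassCurve.Affine.equation_iff _ _).1 h₂.1
  obtain ⟨r2, r4, r6⟩ := he.rts
  rw [WeierstrassCurve.b₂] at r2
  rw [WeierstrassCurve.b₄] at r4
  rw [WeierstrassCurve.b₆] at r6
  have hL : (y₁ - y₂) / (x₁ - x₂) * (x₁ - x₂) = y₁ - y₂ := div_mul_cancel₀ _ hd
  have hM : (y₁ - (-y₂ - W.a₁ * x₂ - W.a₃)) / (x₁ - x₂) * (x₁ - x₂) =
      y₁ - (-y₂ - W.a₁ * x₂ - W.a₃) := div_mul_cancel₀ _ hd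
  have main : ∀ i : Fin 3,
      (((y₁ - y₂) / (x₁ - x₂)) ^ 2 + W.a₁ * ((y₁ - y₂) / (x₁ - x₂)) - W.a₂ - x₁ - x₂ - e i) *
      (((y₁ - (-y₂ - W.a₁ * x₂ - W.a₃)) / (x₁ - x₂)) ^ 2 +
        W.a₁ * ((y₁ - (-y₂ - W.a₁ * x₂ - W.a₃)) / (x₁ - x₂)) - W.a₂ - x₁ - x₂ - e i) *
      (x₁ - x₂) ^ 2 = ((x₁ - e i) * (x₂ - e i) - (e i - e (i + 1)) * (e i - e (i + 2))) ^ 2 := by
    intro i
    have h3 : W.a₁ ^ 2 + 4 * W.a₂ = -4 * (e i + e (i + 1) + e (i + 2)) ∧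
        2 * W.a₄ + W.a₁ * W.a₃ =
          2 * (e i * e (i + 1) + e i * e (i + 2) + e (i + 1) * e (i + 2)) ∧
        W.a₃ ^ 2 + 4 * W.a₆ = -4 * (e i * e (i + 1) * e (i + 2)) := by
      fin_cases i
      · change W.a₁ ^ 2 + 4 * W.a₂ = -4 * (e 0 + e 1 + e 2) ∧
          2 * W.a₄ + W.a₁ * W.a₃ = 2 * (e 0 * e 1 + e 0 * e 2 + e 1 * e 2) ∧
          W.a₃ ^ 2 + 4 * W.a₆ = -4 * (e 0 * e 1 * e 2)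
        exact ⟨r2, r4, r6⟩
      · change W.a₁ ^ 2 + 4 * W.a₂ = -4 * (e 1 + e 2 + e 0) ∧
          2 * W.a₄ + W.a₁ * W.a₃ = 2 * (e 1 * e 2 + e 1 * e 0 + e 2 * e 0) ∧
          W.a₃ ^ 2 + 4 * W.a₆ = -4 * (e 1 * e 2 * e 0)
        refine ⟨?_, ?_, ?_⟩
        · rw [r2]; ring
        · rw [r4]; ring
        · rw [r6]; ring
      · change W.a₁ ^ 2 + 4 * W.a₂ = -4 * (e 2 + e 0 + e 1) ∧
          2 * W.a₄ + W.a₁ * W.a₃ = 2 * (e 2 * e 0 + e 2 * e 1 + e 0 * e 1) ∧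
          W.a₃ ^ 2 + 4 * W.a₆ = -4 * (e 2 * e 0 * e 1)
        refine ⟨?_, ?_, ?_⟩
        · rw [r2]; ring
        · rw [r4]; ring
        · rw [r6]; ring
    exact key he.two h3.1 h3.2.1 h3.2.2 e₁ e₂ hd hL hM
  have hX3 : HasX (WeierstrassCurve.Affine.Point.some x₁ y₁ h₁ +
      WeierstrassCurve.Affine.Point.some x₂ y₂ h₂)
      (W.toAffine.addX x₁ x₂ (W.toAffine.slope x₁ x₂ y₁ y₂)) :=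
    ⟨_, _, WeierstrassCurve.Affine.Point.add_of_X_ne hx⟩
  have hX4 : HasX (WeierstrassCurve.Affine.Point.some x₁ y₁ h₁ -
      WeierstrassCurve.Affine.Point.some x₂ y₂ h₂)
      (W.toAffine.addX x₁ x₂ (W.toAffine.slope x₁ x₂ y₁ (W.toAffine.negY x₂ y₂))) := by
    rw [sub_eq_add_neg, WeierstrassCurve.Affine.Point.neg_some]
    exact ⟨_, _, WeierstrassCurve.Affine.Point.add_of_X_ne hx⟩
  have s1 : W.toAffine.addX x₁ x₂ (W.toAffine.slope x₁ x₂ y₁ y₂) =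
      ((y₁ - y₂) / (x₁ - x₂)) ^ 2 + W.a₁ * ((y₁ - y₂) / (x₁ - x₂)) - W.a₂ - x₁ - x₂ := by
    rw [WeierstrassCurve.Affine.slope_of_X_ne hx]
    rfl
  have s2 : W.toAffine.addX x₁ x₂ (W.toAffine.slope x₁ x₂ y₁ (W.toAffine.negY x₂ y₂)) =
      ((y₁ - (-y₂ - W.a₁ * x₂ - W.a₃)) / (x₁ - x₂)) ^ 2 +
        W.a₁ * ((y₁ - (-y₂ - W.a₁ * x₂ - W.a₃)) / (x₁ - x₂)) - W.a₂ - x₁ - x₂ := by
    rw [WeierstrassCurve.Affine.slope_of_X_ne hx]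
    rfl
  refine ⟨_, _, hX3, hX4, ?_⟩
  rw [s1, s2]
  exact main

end Pool.Agent.GT.OF.H24
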